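import Mathlib

/-!
# LEO4, corollaries: boxes in the ring of integers and subgroups of smaller rank
-/

set_option autoImplicit false

open NumberField Module

namespace Pool.Agent.LEO4.H59

section box

variable (k : Type) [Field k] [NumberField k]

theorem exists_coord :
    ∃ (C : ℝ) (ι : Type) (_ : Fintype ι) (b : Basis ι ℤ (𝓞 k)), 0 ≤ C ∧
      Fintype.card ι = finrank ℚ k ∧
      ∀ (x : 𝓞 k) (i : ι), |(b.repr x i : ℝ)| ≤ C * house (x : k) := by
  classical
  have key : ∃ C : ℝ, ∀ (x : 𝓞 k) (i : k →+* ℂ),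
      ‖(((integralBasis k).reindex (equivReindex k).symm).repr x i : ℂ)‖ ≤
        C * house (algebraMap (𝓞 k) k x) := ⟨_, house.basis_repr_norm_le_const_mul_house k⟩
  obtain ⟨C, hC⟩ := key
  refine ⟨|C|, k →+* ℂ, inferInstance, (RingOfIntegers.basis k).reindex (equivReindex k).symm,
    abs_nonneg _, Embeddings.card k ℂ, fun x i => ?_⟩
  have h := hC x i
  have h1 : (((integralBasis k).reindex (equivReindex k).symm).repr x i : ℂ)
      = ((((RingOfIntegers.basis k).reindex (equivReindex k).symm).repr x i : ℤ) : ℂ) := by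
    rw [Basis.repr_reindex_apply, Basis.repr_reindex_apply]
    rw [show (x : k) = algebraMap (𝓞 k) k x from rfl, integralBasis_repr_apply]
    simp
  rw [h1, Complex.norm_intCast] at h
  exact h.trans (mul_le_mul_of_nonneg_right (le_abs_self C) (house_nonneg _))

/-- the number of integers of house at most `R`. -/
theorem box_card :
    ∃ C : ℝ, 0 < C ∧ ∀ R : ℝ, 1 ≤ R →
      {x : 𝓞 k | house (x : k) ≤ R}.Finite ∧
      (({x : 𝓞 k | house (x : k) ≤ R}.ncard : ℕ) : ℝ) ≤ C * R ^ finrank ℚ k := by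
  classical
  obtain ⟨C, ι, hι, b, hC0, hcard, hC⟩ := exists_coord k
  refine ⟨(2 * C + 1) ^ finrank ℚ k, by positivity, fun R hR => ?_⟩
  set T : Finset (ι → ℤ) := Fintype.piFinset fun _ => Finset.Icc (-⌊C * R⌋) ⌊C * R⌋ with hT
  have hmaps : ∀ x ∈ {x : 𝓞 k | house (x : k) ≤ R}, (fun i => b.repr x i) ∈ (T : Set (ι → ℤ)) := by
    intro x hx
    simp only [hT, Finset.mem_coe, Fintype.mem_piFinset, Finset.mem_Icc]
    intro i
    have h1 : |(b.repr x i : ℝ)| ≤ C * R :=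
      (hC x i).trans (mul_le_mul_of_nonneg_left hx hC0)
    rw [abs_le] at h1
    constructor
    · have : -(b.repr x i) ≤ ⌊C * R⌋ := by
        rw [Int.le_floor]; push_cast; linarith [h1.1]
      linarith
    · rw [Int.le_floor]; exact h1.2
  have hinj : Set.InjOn (fun x : 𝓞 k => (fun i => b.repr x i)) {x : 𝓞 k | house (x : k) ≤ R} := by
    intro x _ y _ hxy
    apply b.repr.injective
    ext i
    exact congrFun hxy i
  have hfin : {x : 𝓞 k | house (x : k) ≤ R}.Finite :=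
    Set.Finite.of_injOn hmaps hinj T.finite_toSet
  refine ⟨hfin, ?_⟩
  have h2 : {x : 𝓞 k | house (x : k) ≤ R}.ncard ≤ (T : Set (ι → ℤ)).ncard :=
    Set.ncard_le_ncard_of_injOn _ hmaps hinj T.finite_toSet
  rw [Set.ncard_coe_finset, hT, Fintype.card_piFinset] at h2
  simp only [Int.card_Icc, Finset.prod_const, Finset.card_univ, hcard] at h2
  have h3 : (((⌊C * R⌋ + 1 - -⌊C * R⌋).toNat : ℕ) : ℝ) ≤ (2 * C + 1) * R := by
    have h0 : 0 ≤ ⌊C * R⌋ := Int.floor_nonneg.mpr (by positivity)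
    have h4 : (((⌊C * R⌋ + 1 - -⌊C * R⌋).toNat : ℤ)) = 2 * ⌊C * R⌋ + 1 := by
      rw [Int.toNat_of_nonneg (by linarith)]; ring
    have h5 : (((⌊C * R⌋ + 1 - -⌊C * R⌋).toNat : ℕ) : ℝ) = 2 * (⌊C * R⌋ : ℝ) + 1 := by
      exact_mod_cast h4
    rw [h5]
    have h6 : (⌊C * R⌋ : ℝ) ≤ C * R := Int.floor_le _
    nlinarith
  calc (({x : 𝓞 k | house (x : k) ≤ R}.ncard : ℕ) : ℝ)
      ≤ (((⌊C * R⌋ + 1 - -⌊C * R⌋).toNat ^ finrank ℚ k : ℕ) : ℝ) := by exact_mod_cast h2
    _ = (((⌊C * R⌋ + 1 - -⌊C * R⌋).toNat : ℕ) : ℝ) ^ finrank ℚ k := by push_cast; ring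
    _ ≤ ((2 * C + 1) * R) ^ finrank ℚ k := by gcongr
    _ = (2 * C + 1) ^ finrank ℚ k * R ^ finrank ℚ k := by rw [mul_pow]

/-- A subgroup no positive multiple of `y` belongs to has few elements in a box. -/
theorem subgroup_card (N : AddSubgroup (𝓞 k)) (y : 𝓞 k)
    (hy : ∀ i : ℕ, i ≠ 0 → (i • y) ∉ N) :
    ∃ C : ℝ, 0 < C ∧ ∀ R : ℝ, 1 ≤ R →
      (({x : 𝓞 k | x ∈ N ∧ house (x : k) ≤ R}.ncard : ℕ) : ℝ) ≤ C * R ^ (finrank ℚ k - 1) := by
  classical
  obtain ⟨C, hC0, hC⟩ := box_card k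
  set D : ℝ := 1 + house (y : k) with hD
  have hD1 : 1 ≤ D := by have := house_nonneg (y : k); linarith
  refine ⟨C * D ^ finrank ℚ k, by positivity, fun R hR => ?_⟩
  have hn : 0 < finrank ℚ k := finrank_pos
  obtain ⟨hfinR, -⟩ := hC R hR
  have hDR : 1 ≤ D * R := by nlinarith
  obtain ⟨hfin, hcard⟩ := hC (D * R) hDR
  set A : Set (𝓞 k) := {x : 𝓞 k | x ∈ N ∧ house (x : k) ≤ R} with hA
  have hAfin : A.Finite := hfinR.subset fun x hx => hx.2
  -- the map (x, i) ↦ x + i y is injective on A × {0..⌊R⌋}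
  set P : Finset (𝓞 k × ℕ) := hAfin.toFinset ×ˢ Finset.range (⌊R⌋₊ + 1) with hP
  have hmaps : ∀ p ∈ (P : Set (𝓞 k × ℕ)), (p.1 + p.2 • y) ∈ {x : 𝓞 k | house (x : k) ≤ D * R} := by
    rintro ⟨x, i⟩ hp
    simp only [hP, Finset.coe_product, Set.mem_prod, Set.Finite.coe_toFinset, Finset.coe_range,
      Set.mem_Iio] at hp
    obtain ⟨hx, hi⟩ := hp
    have hiR : (i : ℝ) ≤ R := (Nat.le_floor_iff (by linarith)).mp (by omega)
    simp only [Set.mem_ofPred_eq, nsmul_eq_mul, map_add, map_mul, map_natCast]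
    calc house ((x : k) + (i : k) * (y : k)) ≤ house (x : k) + house ((i : k) * (y : k)) :=
          house_add_le _ _
      _ = house (x : k) + i * house (y : k) := by rw [house_nat_mul]
      _ ≤ R + R * house (y : k) := by
          have := house_nonneg (y : k)
          have := hx.2
          nlinarith
      _ = D * R := by rw [hD]; ring
  have hinj : Set.InjOn (fun p : 𝓞 k × ℕ => p.1 + p.2 • y) (P : Set (𝓞 k × ℕ)) := by
    rintro ⟨x, i⟩ hp ⟨x', i'⟩ hp' h
    simp only [hP, Finset.coe_product, Set.mem_prod, Set.Finite.coe_toFinset, Finset.coe_range,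
      Set.mem_Iio] at hp hp'
    simp only at h
    have key : ∀ (a b : ℕ) (u v : 𝓞 k), u ∈ N → v ∈ N → a ≤ b → u + a • y = v + b • y → a = b := by
      intro a b u v hu hv hab huv
      by_contra hne
      obtain ⟨c, rfl⟩ := Nat.exists_eq_add_of_le hab
      refine hy c (by omega) ?_
      have : c • y = u - v := by
        rw [add_smul] at huv
        linear_combination (exp := 1) -huv
      rw [this]
      exact N.sub_mem hu hv
    have hii : i = i' := by
      rcases le_total i i' with hle | hle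
      · exact key i i' x x' hp.1.1 hp'.1.1 hle h
      · exact (key i' i x' x hp'.1.1 hp.1.1 hle h.symm).symm
    subst hii
    simp only [Prod.mk.injEq, and_true]
    exact add_right_cancel h
  have h1 : (P : Set (𝓞 k × ℕ)).ncard ≤ {x : 𝓞 k | house (x : k) ≤ D * R}.ncard :=
    Set.ncard_le_ncard_of_injOn _ hmaps hinj hfin
  rw [Set.ncard_coe_finset, hP, Finset.card_product, Finset.card_range,
    ← Set.ncard_eq_toFinset_card A hAfin] at h1
  have h2 : (A.ncard : ℝ) * R ≤ C * D ^ finrank ℚ k * R ^ finrank ℚ k := by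
    have h3 : R ≤ ((⌊R⌋₊ + 1 : ℕ) : ℝ) := by
      push_cast; exact (Nat.lt_floor_add_one R).le
    calc (A.ncard : ℝ) * R ≤ (A.ncard : ℝ) * ((⌊R⌋₊ + 1 : ℕ) : ℝ) := by gcongr
      _ = ((A.ncard * (⌊R⌋₊ + 1) : ℕ) : ℝ) := by push_cast; ring
      _ ≤ ({x : 𝓞 k | house (x : k) ≤ D * R}.ncard : ℝ) := by exact_mod_cast h1
      _ ≤ C * (D * R) ^ finrank ℚ k := hcard
      _ = C * D ^ finrank ℚ k * R ^ finrank ℚ k := by rw [mul_pow]; ring
  have h4 : R ^ finrank ℚ k = R ^ (finrank ℚ k - 1) * R := by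
    rw [← pow_succ]; congr 1; omega
  rw [h4, ← mul_assoc] at h2
  exact le_of_mul_le_mul_right h2 (by linarith)

end box

end Pool.Agent.LEO4.H59
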