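import Mathlib
import Pool.Agent.Helper59_LEO4.Box

/-!
# LEO4, corollaries: almost all of the quadratic extensions are not abelian over `ℚ`
-/

set_option autoImplicit false

open NumberField Module IsDedekindDomain WithZero

namespace Pool.Agent.LEO4.H59

/-- squares of a quadratic extension that lie below. -/
theorem sq_below {k K : Type} [Field k] [Field K] [Algebra k K] (h2 : (2 : k) ≠ 0)
    (hK : finrank k K = 2) {d c : k} {r x : K} (hr : r ^ 2 = algebraMap k K d)
    (hd : ¬ IsSquare d) (hx : x ^ 2 = algebraMap k K c) :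
    IsSquare c ∨ ∃ b : k, c = b ^ 2 * d := by
  classical
  have : FiniteDimensional k K := FiniteDimensional.of_finrank_pos (by omega)
  have hrk : ∀ t : k, algebraMap k K t ≠ r := by
    intro t ht
    apply hd
    refine ⟨t, ?_⟩
    apply (algebraMap k K).injective
    rw [← hr, ← ht, map_mul, sq]
  have hli : LinearIndependent k ![(1 : K), r] := by
    rw [LinearIndependent.pair_iff]
    intro s t hst
    have ht : t = 0 := by
      by_contra ht
      apply hrk (-s / t)
      rw [Algebra.smul_def, mul_one, Algebra.smul_def] at hst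
      have ht' : algebraMap k K t ≠ 0 := by simpa using ht
      rw [map_div₀, map_neg, div_eq_iff ht']
      linear_combination -hst
    subst ht
    simp only [zero_smul, add_zero] at hst
    rw [Algebra.smul_def, mul_one] at hst
    exact ⟨by simpa using hst, rfl⟩
  have hspan := hli.span_eq_top_of_card_eq_finrank' (by simpa using hK.symm)
  have hxm : x ∈ Submodule.span k (Set.range ![(1 : K), r]) := by rw [hspan]; trivial
  simp only [Matrix.range_cons, Matrix.range_empty, Set.union_empty, Set.singleton_union] at hxm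
  rw [Submodule.mem_span_pair] at hxm
  obtain ⟨a, b, hab⟩ := hxm
  rw [Algebra.smul_def, mul_one, Algebra.smul_def] at hab
  have h1 : algebraMap k K (c - a ^ 2 - b ^ 2 * d) = algebraMap k K (2 * a * b) * r := by
    simp only [map_sub, map_mul, map_pow, map_ofNat]
    rw [← hx, ← hab, ← hr]
    ring
  have h2ab : 2 * a * b = 0 := by
    by_contra hne
    apply hrk ((c - a ^ 2 - b ^ 2 * d) / (2 * a * b))
    have hne' : algebraMap k K (2 * a * b) ≠ 0 := by simpa using hne
    rw [map_div₀, h1]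
    field_simp
  rw [h2ab, map_zero, zero_mul] at h1
  have h3 : c - a ^ 2 - b ^ 2 * d = 0 := (map_eq_zero (algebraMap k K)).mp h1
  rcases mul_eq_zero.mp h2ab with h | h
  · have ha : a = 0 := by
      rcases mul_eq_zero.mp h with h' | h'
      · exact absurd h' h2
      · exact h'
    right
    refine ⟨b, ?_⟩
    rw [ha] at h3
    linear_combination h3
  · left
    refine ⟨a, ?_⟩
    rw [h] at h3
    linear_combination h3

/-- a square factor of a quotient of an integer by a squarefree integer is integral. -/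
theorem integral_of_sq_mul {k : Type} [Field k] [NumberField k] {m n : 𝓞 k}
    (hm : Squarefree (Ideal.span {m})) (b : k) (h : (n : k) = b ^ 2 * m) :
    ∃ β : 𝓞 k, (β : k) = b := by
  refine HeightOneSpectrum.mem_integers_of_valuation_le_one k b fun v => ?_
  by_contra hv
  rw [not_le] at hv
  have hm1 : exp (-2 : ℤ) < v.valuation k (m : k) := by
    rw [show (m : k) = algebraMap (𝓞 k) k m from rfl, HeightOneSpectrum.valuation_of_algebraMap]
    by_contra hle
    rw [not_lt] at hle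
    have h2 := (v.intValuation_le_pow_iff_dvd m 2).mp (by simpa using hle)
    rw [sq] at h2
    exact v.prime.not_isUnit (hm _ h2)
  have hn1 : v.valuation k (n : k) ≤ 1 := v.valuation_le_one n
  rw [h, map_mul, map_pow] at hn1
  have hb : exp (1 : ℤ) ≤ v.valuation k b := by
    have h0 : v.valuation k b ≠ 0 := (zero_lt_one.trans hv).ne'
    rw [← exp_log h0] at hv ⊢
    rw [← exp_zero, exp_lt_exp] at hv
    rw [exp_le_exp]
    omega
  have : (1 : ℤᵐ⁰) < v.valuation k b ^ 2 * v.valuation k (m : k) := by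
    calc (1 : ℤᵐ⁰) = exp (1 : ℤ) ^ 2 * exp (-2 : ℤ) := by
          rw [← exp_nsmul, ← exp_add]; norm_num
      _ < exp (1 : ℤ) ^ 2 * v.valuation k (m : k) := by
          exact mul_lt_mul_of_pos_left hm1 (pow_pos exp_pos 2)
      _ ≤ v.valuation k b ^ 2 * v.valuation k (m : k) := by gcongr
  exact absurd hn1 (not_le.mpr this)

/-- the elements of a box that an automorphism multiplies by a bounded integer. -/
theorem sigma_card (k : Type) [Field k] [NumberField k] (σ : k ≃ₐ[ℚ] k) (hσ : σ ≠ 1) (B : ℝ) :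
    ∃ C : ℝ, 0 < C ∧ ∀ R : ℝ, 1 ≤ R →
      (({x : 𝓞 k | house (x : k) ≤ R ∧
          ∃ ε : 𝓞 k, house (ε : k) ≤ B ∧ σ (x : k) = ε * x}.ncard : ℕ) : ℝ) ≤
        C * R ^ (finrank ℚ k - 1) := by
  classical
  obtain ⟨C₀, hC₀, hbox⟩ := box_card k
  set E : Set (𝓞 k) := {ε : 𝓞 k | house (ε : k) ≤ max B 1} with hE
  have hEfin : E.Finite := (hbox (max B 1) (le_max_right _ _)).1
  have key : ∀ ε : 𝓞 k, ∃ C : ℝ, 0 < C ∧ ∀ R : ℝ, 1 ≤ R →
      (({x : 𝓞 k | σ (x : k) = ε * x ∧ house (x : k) ≤ R}.ncard : ℕ) : ℝ) ≤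
        C * R ^ (finrank ℚ k - 1) := by
    intro ε
    let N : AddSubgroup (𝓞 k) :=
      { carrier := {x : 𝓞 k | σ (x : k) = ε * x}
        add_mem' := by
          intro a b ha hb
          simp only [Set.mem_ofPred_eq] at *
          push_cast
          rw [map_add, ha, hb]; ring
        zero_mem' := by simp
        neg_mem' := by
          intro a ha
          simp only [Set.mem_ofPred_eq] at *
          push_cast
          rw [map_neg, ha]; ring }
    have hN : ∀ x : 𝓞 k, x ∈ N ↔ σ (x : k) = ε * x := fun x => Iff.rfl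
    have hne : ∃ y : 𝓞 k, y ∉ N := by
      by_contra hall
      push Not at hall
      apply hσ
      have h1 : (1 : k) = ε := by
        have := (hN 1).mp (hall 1)
        simpa using this
      have h2 : ∀ y : 𝓞 k, σ (y : k) = y := by
        intro y
        have := (hN y).mp (hall y)
        rw [← h1, one_mul] at this
        exact this
      ext z
      obtain ⟨⟨a, s⟩, hs⟩ := IsLocalization.surj (nonZeroDivisors (𝓞 k)) z
      simp only at hs
      have hs0 : (algebraMap (𝓞 k) k (s : 𝓞 k)) ≠ 0 := by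
        have := nonZeroDivisors.ne_zero s.2
        simpa using this
      have h3 : σ z * algebraMap (𝓞 k) k (s : 𝓞 k) = z * algebraMap (𝓞 k) k (s : 𝓞 k) := by
        rw [hs]
        have h4 := congrArg σ hs
        rw [map_mul] at h4
        rw [show (algebraMap (𝓞 k) k (s : 𝓞 k)) = ((s : 𝓞 k) : k) from rfl,
          show (algebraMap (𝓞 k) k a) = (a : k) from rfl, h2, h2] at h4
        exact h4
      exact mul_right_cancel₀ hs0 h3
    obtain ⟨y, hy⟩ := hne
    obtain ⟨C, hC, h⟩ := subgroup_card k N y (by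
      intro i hi hmem
      apply hy
      rw [hN] at hmem ⊢
      have hi' : (i : k) ≠ 0 := by exact_mod_cast hi
      simp only [nsmul_eq_mul, map_mul, map_natCast] at hmem
      have : (i : k) * σ (y : k) = (i : k) * (ε * y) := by rw [hmem]; ring
      exact mul_left_cancel₀ hi' this)
    exact ⟨C, hC, h⟩
  choose C hC h using key
  refine ⟨1 + ∑ ε ∈ hEfin.toFinset, C ε, by
    have : 0 ≤ ∑ ε ∈ hEfin.toFinset, C ε := Finset.sum_nonneg fun ε _ => (hC ε).le
    linarith, fun R hR => ?_⟩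
  have hsub : {x : 𝓞 k | house (x : k) ≤ R ∧ ∃ ε : 𝓞 k, house (ε : k) ≤ B ∧ σ (x : k) = ε * x} ⊆
      ⋃ ε ∈ hEfin.toFinset, {x : 𝓞 k | σ (x : k) = ε * x ∧ house (x : k) ≤ R} := by
    rintro x ⟨hx, ε, hε, hσx⟩
    simp only [Set.mem_iUnion]
    refine ⟨ε, ?_, hσx, hx⟩
    rw [Set.Finite.mem_toFinset]
    exact hε.trans (le_max_left _ _)
  have hfin : ∀ ε : 𝓞 k, {x : 𝓞 k | σ (x : k) = ε * x ∧ house (x : k) ≤ R}.Finite := fun ε =>
    (hbox R hR).1.subset fun x hx => hx.2
  have h1 := Set.ncard_le_ncard hsub (Set.Finite.biUnion (Finset.finite_toSet _) fun ε _ => hfin ε)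
  have h2 : (⋃ ε ∈ hEfin.toFinset,
      {x : 𝓞 k | σ (x : k) = ε * x ∧ house (x : k) ≤ R}).ncard ≤
      ∑ ε ∈ hEfin.toFinset, {x : 𝓞 k | σ (x : k) = ε * x ∧ house (x : k) ≤ R}.ncard :=
    Finset.set_ncard_biUnion_le _ _
  have hRn : 0 ≤ R ^ (finrank ℚ k - 1) := by positivity
  calc _ ≤ ((∑ ε ∈ hEfin.toFinset,
        {x : 𝓞 k | σ (x : k) = ε * x ∧ house (x : k) ≤ R}.ncard : ℕ) : ℝ) := by
        exact_mod_cast h1.trans h2
    _ = ∑ ε ∈ hEfin.toFinset,
        (({x : 𝓞 k | σ (x : k) = ε * x ∧ house (x : k) ≤ R}.ncard : ℕ) : ℝ) := by push_cast; rfl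
    _ ≤ ∑ ε ∈ hEfin.toFinset, C ε * R ^ (finrank ℚ k - 1) :=
        Finset.sum_le_sum fun ε _ => h ε R hR
    _ = (∑ ε ∈ hEfin.toFinset, C ε) * R ^ (finrank ℚ k - 1) := by rw [Finset.sum_mul]
    _ ≤ (1 + ∑ ε ∈ hEfin.toFinset, C ε) * R ^ (finrank ℚ k - 1) := by nlinarith

theorem house_le {k : Type} [Field k] [NumberField k] {x : k} {B : ℝ} (hB : 0 ≤ B)
    (h : ∀ φ : k →+* ℂ, ‖φ x‖ ≤ B) : house x ≤ B := by
  rw [house, pi_norm_le_iff_of_nonneg hB]
  intro φ
  exact h φ

/-- **NAB**: almost all the quadratic extensions `k(√(3m))` are not abelian over `ℚ`. -/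
theorem nab (k : Type) [Field k] [NumberField k] (hn : 2 ≤ finrank ℚ k) (B : ℝ) :
    ∃ C : ℝ, 0 < C ∧ ∀ R : ℝ, 1 ≤ R → ∀ S : Finset (𝓞 k),
      (∀ m ∈ S, Squarefree (Ideal.span {m}) ∧ ¬ IsSquare (3 * (m : k)) ∧ house (m : k) ≤ R ∧
        (∀ φ ψ : k →+* ℂ, ‖φ (m : k)‖ ≤ B * ‖ψ (m : k)‖) ∧
        ∃ (K : Type) (_ : Field K) (_ : NumberField K) (_ : Algebra k K) (r : K),
          finrank k K = 2 ∧ r ^ 2 = algebraMap k K (3 * (m : k)) ∧ IsAbelianGalois ℚ K) →
      (S.card : ℝ) ≤ C * R ^ (finrank ℚ k - 1) := by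
  classical
  by_cases hab : IsAbelianGalois ℚ k
  swap
  · refine ⟨1, one_pos, fun R hR S hS => ?_⟩
    have hS0 : S = ∅ := by
      rw [Finset.eq_empty_iff_forall_notMem]
      intro m hm
      obtain ⟨-, -, -, -, K, _, _, _, r, -, -, hK⟩ := hS m hm
      exact hab (IsAbelianGalois.tower_bot ℚ k K)
    rw [hS0]
    simp only [Finset.card_empty, Nat.cast_zero]
    positivity
  have hcard : Nat.card (k ≃ₐ[ℚ] k) = finrank ℚ k := IsGalois.card_aut_eq_finrank ℚ k
  obtain ⟨σ, hσ⟩ : ∃ σ : k ≃ₐ[ℚ] k, σ ≠ 1 := by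
    by_contra hall
    push Not at hall
    have : Subsingleton (k ≃ₐ[ℚ] k) := ⟨fun a b => by rw [hall a, hall b]⟩
    have h1 : Nat.card (k ≃ₐ[ℚ] k) ≤ 1 := Finite.card_le_one_iff_subsingleton.mpr this
    omega
  obtain ⟨C, hC, hcount⟩ := sigma_card k σ hσ (max B 0)
  refine ⟨C, hC, fun R hR S hS => ?_⟩
  refine le_trans ?_ (hcount R hR)
  have hsub : (S : Set (𝓞 k)) ⊆ {x : 𝓞 k | house (x : k) ≤ R ∧
      ∃ ε : 𝓞 k, house (ε : k) ≤ max B 0 ∧ σ (x : k) = ε * x} := by
    intro m hm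
    obtain ⟨hsf, hnsq, hR', hbal, K, _, _, _, r, hK2, hr, hK⟩ := hS m hm
    refine ⟨hR', ?_⟩
    have hm0 : m ≠ 0 := by
      rintro rfl
      apply hnsq
      simp
    have hm0' : (m : k) ≠ 0 := by simpa using hm0
    -- extend σ
    obtain ⟨g, hg⟩ : ∃ g : K ≃ₐ[ℚ] K, ∀ x : k, g (algebraMap k K x) = algebraMap k K (σ x) :=
      ⟨σ.liftNormal K, fun x => σ.liftNormal_commutes K x⟩
    have hgr : (g r) ^ 2 = algebraMap k K (3 * σ (m : k)) := by
      rw [← map_pow, hr, hg, map_mul, map_ofNat]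
    obtain ⟨b, hb⟩ : ∃ b : k, σ (m : k) = b ^ 2 * m := by
      rcases sq_below (two_ne_zero) hK2 hr hnsq hgr with h | ⟨b, hb⟩
      · exfalso
        apply hnsq
        obtain ⟨a, ha⟩ := h
        refine ⟨σ.symm a, ?_⟩
        have := congrArg σ.symm ha
        rw [map_mul, map_mul, map_ofNat, AlgEquiv.symm_apply_apply] at this
        exact this
      · refine ⟨b, ?_⟩
        have h3 : (3 : k) ≠ 0 := by norm_num
        have : (3 : k) * σ (m : k) = 3 * (b ^ 2 * m) := by rw [hb]; ring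
        exact mul_left_cancel₀ h3 this
    -- the image of `m` is an integer
    set σm : 𝓞 k := RingOfIntegers.mapRingEquiv σ.toRingEquiv m with hσm
    have hσm' : (σm : k) = σ (m : k) := rfl
    obtain ⟨β, hβ⟩ := integral_of_sq_mul (n := σm) hsf b (by rw [hσm', hb])
    have e : ((β ^ 2 : 𝓞 k) : k) = b ^ 2 := by
      rw [← hβ]
      exact map_pow (algebraMap (𝓞 k) k) β 2
    refine ⟨β ^ 2, ?_, by rw [e, hb]⟩
    apply house_le (le_max_right _ _)
    intro φ
    have h1 : ‖φ ((β ^ 2 : 𝓞 k) : k)‖ * ‖φ (m : k)‖ ≤ B * ‖φ (m : k)‖ := by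
      have h2 := hbal (φ.comp (σ : k →+* k)) φ
      rw [RingHom.comp_apply] at h2
      rw [← norm_mul, ← map_mul]
      have h3 : ((β ^ 2 : 𝓞 k) : k) * (m : k) = (σ : k →+* k) (m : k) := by
        rw [e]
        exact hb.symm
      rw [h3]
      exact h2
    have hpos : 0 < ‖φ (m : k)‖ := by
      rw [norm_pos_iff]
      simpa using hm0'
    exact (le_of_mul_le_mul_right h1 hpos).trans (le_max_left _ _)
  have hfin : {x : 𝓞 k | house (x : k) ≤ R ∧
      ∃ ε : 𝓞 k, house (ε : k) ≤ max B 0 ∧ σ (x : k) = ε * x}.Finite := by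
    obtain ⟨C₀, -, hbox⟩ := box_card k
    exact (hbox R hR).1.subset fun x hx => hx.1
  have := Set.ncard_le_ncard hsub hfin
  rw [Set.ncard_coe_finset] at this
  exact_mod_cast this

end Pool.Agent.LEO4.H59
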