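import Mathlib
import Pool.Agent.Helper59_LEO4.Nab

/-!
# LEO4, corollaries: the abelian fields are negligible; construction of quadratic extensions
-/

set_option autoImplicit false

open NumberField Module IsDedekindDomain WithZero Polynomial Filter

namespace Pool.Agent.LEO4.H59

/-- the quadratic extension `k(√d)`. -/
theorem exists_quad (k : Type) [Field k] [NumberField k] (d : k) (hd : ¬ IsSquare d) :
    ∃ (K : Type) (_ : Field K) (_ : NumberField K) (_ : Algebra k K) (r : K),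
      finrank k K = 2 ∧ r ^ 2 = algebraMap k K d := by
  have hirr : Irreducible (X ^ 2 - C d : k[X]) := by
    rw [X_pow_sub_C_irreducible_iff_of_prime Nat.prime_two]
    intro b hb
    exact hd ⟨b, by rw [← hb, sq]⟩
  have hfact : Fact (Irreducible (X ^ 2 - C d : k[X])) := ⟨hirr⟩
  have h2 : finrank k (AdjoinRoot (X ^ 2 - C d : k[X])) = 2 := by
    rw [(AdjoinRoot.powerBasis hirr.ne_zero).finrank, AdjoinRoot.powerBasis_dim]
    exact natDegree_X_pow_sub_C
  have hfin : FiniteDimensional k (AdjoinRoot (X ^ 2 - C d : k[X])) :=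
    FiniteDimensional.of_finrank_pos (by omega)
  have hNF : NumberField (AdjoinRoot (X ^ 2 - C d : k[X])) := NumberField.of_module_finite k _
  refine ⟨AdjoinRoot (X ^ 2 - C d : k[X]), inferInstance, hNF, inferInstance,
    AdjoinRoot.root _, h2, ?_⟩
  have h := AdjoinRoot.eval₂_root (X ^ 2 - C d : k[X])
  rw [eval₂_sub, eval₂_pow, eval₂_X, eval₂_C, sub_eq_zero] at h
  exact h

/-- a complex embedding of a totally real field is real. -/
theorem exists_real {k : Type} [Field k] [NumberField k] (hk : IsTotallyReal k) (φ : k →+* ℂ) :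
    ∃ ψ : k →+* ℝ, ∀ x, φ x = ψ x := by
  have h : ComplexEmbedding.IsReal φ := by
    rw [← InfinitePlace.isReal_mk_iff]
    exact hk.isReal _
  exact ⟨h.embedding, fun x => (ComplexEmbedding.IsReal.coe_embedding_apply h x).symm⟩

/-- balanced elements have small house. -/
theorem house_pow_le {k : Type} [Field k] [NumberField k] (hk : IsTotallyReal k) (m : 𝓞 k)
    (hpos : ∀ φ : k →+* ℝ, 0 < φ m) (B : ℝ) (hB : ∀ φ ψ : k →+* ℝ, φ m ≤ B * ψ m) :
    house (m : k) ^ finrank ℚ k ≤ |B| ^ finrank ℚ k * ((Algebra.norm ℤ m).natAbs : ℝ) := by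
  classical
  have hnorm : ((Algebra.norm ℤ m).natAbs : ℝ) = ∏ φ : k →+* ℂ, ‖φ (m : k)‖ := by
    have h2 : (((Algebra.norm ℤ m : ℤ) : ℚ) : ℂ) = ∏ φ : k →+* ℂ, φ (m : k) := by
      rw [Algebra.coe_norm_int]
      have h3 := Algebra.norm_eq_prod_embeddings ℚ ℂ (m : k)
      rw [show (((Algebra.norm ℚ (m : k)) : ℚ) : ℂ) = algebraMap ℚ ℂ (Algebra.norm ℚ (m : k)) from rfl,
        h3]
      exact (Fintype.prod_equiv (RingHom.equivRatAlgHom k ℂ) _ _ (fun f => rfl)).symm
    have h4 := congrArg norm h2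
    rw [norm_prod] at h4
    rw [← h4]
    have h5 : (((Algebra.norm ℤ m).natAbs : ℕ) : ℝ) = |((Algebra.norm ℤ m : ℤ) : ℝ)| := by
      rw [Nat.cast_natAbs, Int.cast_abs]
    rw [h5]
    rw [show (((Algebra.norm ℤ m : ℤ) : ℚ) : ℂ) = (((Algebra.norm ℤ m : ℤ) : ℝ) : ℂ) by push_cast; rfl,
      Complex.norm_real, Real.norm_eq_abs]
  rw [hnorm]
  obtain ⟨φ₀, hφ₀⟩ : ∃ φ₀ : k →+* ℂ, house (m : k) = ‖φ₀ (m : k)‖ := by
    have h := Finset.exists_mem_eq_sup' (Finset.univ_nonempty (α := k →+* ℂ))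
      (fun φ : k →+* ℂ => ‖φ (m : k)‖₊)
    obtain ⟨φ₀, -, h⟩ := h
    refine ⟨φ₀, ?_⟩
    rw [house_eq_sup', h]
    rfl
  have hle : ∀ φ : k →+* ℂ, house (m : k) ≤ |B| * ‖φ (m : k)‖ := by
    intro φ
    obtain ⟨ψ₀, hψ₀⟩ := exists_real hk φ₀
    obtain ⟨ψ, hψ⟩ := exists_real hk φ
    rw [hφ₀, hψ₀, hψ, Complex.norm_real, Complex.norm_real, Real.norm_of_nonneg (hpos ψ₀).le,
      Real.norm_of_nonneg (hpos ψ).le]
    refine (hB ψ₀ ψ).trans ?_
    exact mul_le_mul_of_nonneg_right (le_abs_self B) (hpos ψ).le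
  calc house (m : k) ^ finrank ℚ k = ∏ _φ : k →+* ℂ, house (m : k) := by
        rw [Finset.prod_const, Finset.card_univ, Embeddings.card]
    _ ≤ ∏ φ : k →+* ℂ, |B| * ‖φ (m : k)‖ :=
        Finset.prod_le_prod (fun _ _ => house_nonneg _) fun φ _ => hle φ
    _ = |B| ^ finrank ℚ k * ∏ φ : k →+* ℂ, ‖φ (m : k)‖ := by
        rw [Finset.prod_mul_distrib, Finset.prod_const, Finset.card_univ, Embeddings.card]

/-- the abelian fields are negligible. -/
theorem nab_small (k : Type) [Field k] [NumberField k] (hk : IsTotallyReal k)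
    (hn : 2 ≤ finrank ℚ k) (B : ℝ) (ε : ℝ) (hε : 0 < ε) :
    ∀ᶠ Z : ℝ in atTop, ∀ S : Finset (𝓞 k),
      (∀ m ∈ S, Squarefree (Ideal.span {m}) ∧ ¬ IsSquare (3 * (m : k)) ∧
        ((Algebra.norm ℤ m).natAbs : ℝ) ≤ Z ∧ (∀ φ : k →+* ℝ, 0 < φ m) ∧
        (∀ φ ψ : k →+* ℝ, φ m ≤ B * ψ m) ∧
        ∃ (K : Type) (_ : Field K) (_ : NumberField K) (_ : Algebra k K) (r : K),
          finrank k K = 2 ∧ r ^ 2 = algebraMap k K (3 * (m : k)) ∧ IsAbelianGalois ℚ K) →
      (S.card : ℝ) ≤ ε * Z := by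
  obtain ⟨C, hC, hnab⟩ := nab k hn |B|
  set n := finrank ℚ k with hndef
  -- a threshold for `R`
  set D : ℝ := |B| ^ n + 1 with hD
  have hD1 : 1 ≤ D := by have : 0 ≤ |B| ^ n := by positivity
                         linarith
  filter_upwards [eventually_ge_atTop (1 : ℝ), eventually_ge_atTop ((C * D / ε) ^ n)] with Z hZ1 hZ2 S hS
  have hn0 : (n : ℝ) ≠ 0 := by
    have : n ≠ 0 := by omega
    exact_mod_cast this
  have hn0' : n ≠ 0 := by omega
  set R : ℝ := (D * Z) ^ ((1 : ℝ) / n) with hR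
  have hDZ : 1 ≤ D * Z := by nlinarith
  have hRn : R ^ n = D * Z := by
    rw [hR, ← Real.rpow_natCast, ← Real.rpow_mul (by linarith), one_div, inv_mul_cancel₀ hn0,
      Real.rpow_one]
  have hR1 : 1 ≤ R := Real.one_le_rpow hDZ (by positivity)
  have hRbig : C * D / ε ≤ R := by
    have h0 : 0 ≤ C * D / ε := by positivity
    have h1 : (C * D / ε) ^ n ≤ R ^ n := by
      rw [hRn]; nlinarith
    exact le_of_pow_le_pow_left₀ hn0' (by linarith) h1
  have hcount := hnab R hR1 S (fun m hm => by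
    obtain ⟨h1, h2, h3, h4, h5, h6⟩ := hS m hm
    refine ⟨h1, h2, ?_, ?_, h6⟩
    · have h7 := house_pow_le hk m h4 B h5
      have h8 : house (m : k) ^ n ≤ R ^ n := by
        rw [hRn]
        refine h7.trans ?_
        have : 0 ≤ |B| ^ n := by positivity
        rw [hD]
        have hZ0 : 0 ≤ Z := by linarith
        nlinarith
      exact le_of_pow_le_pow_left₀ hn0' (by linarith) h8
    · intro φ ψ
      obtain ⟨φ', hφ'⟩ := exists_real hk φ
      obtain ⟨ψ', hψ'⟩ := exists_real hk ψ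
      rw [hφ', hψ', Complex.norm_real, Complex.norm_real, Real.norm_of_nonneg (h4 φ').le,
        Real.norm_of_nonneg (h4 ψ').le]
      exact (h5 φ' ψ').trans (mul_le_mul_of_nonneg_right (le_abs_self B) (h4 ψ').le))
  refine hcount.trans ?_
  have hpow : R ^ (n - 1) * R = D * Z := by
    rw [← pow_succ, ← hRn]; congr 1; omega
  have hRpos : 0 < R := by linarith
  have h9 : R ^ (n - 1) = D * Z / R := by
    rw [eq_div_iff hRpos.ne', hpow]
  rw [h9]
  rw [mul_div_assoc', div_le_iff₀ hRpos]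
  have h10 : C * D ≤ ε * R := by
    rw [div_le_iff₀ hε] at hRbig; linarith
  have hZ0 : 0 ≤ Z := by linarith
  nlinarith

end Pool.Agent.LEO4.H59
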