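import Mathlib
import Pool.Agent.Helper59_LEO4.Nab

/-!
# LEO4, corollaries: isomorphic fields, selection, discriminants
-/

set_option autoImplicit false

open NumberField Module IsDedekindDomain WithZero Polynomial

namespace Pool.Agent.LEO4.H59

/-- **SEL**: representatives. -/
theorem select {α : Type*} [DecidableEq α] (S : Finset α) (r : α → α → Prop)
    [DecidableRel r] (hrefl : ∀ a, r a a) (hsymm : ∀ a b, r a b → r b a) (n : ℕ)
    (h : ∀ a ∈ S, (S.filter (r a)).card ≤ n) :
    ∃ T ⊆ S, (∀ a ∈ T, ∀ b ∈ T, r a b → a = b) ∧ S.card ≤ n * T.card := by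
  classical
  set P : Finset (Finset α) := S.powerset.filter fun T => ∀ a ∈ T, ∀ b ∈ T, r a b → a = b with hP
  have hPne : P.Nonempty := ⟨∅, by simp [hP]⟩
  obtain ⟨T, hT, hmax⟩ := Finset.exists_max_image P Finset.card hPne
  rw [hP, Finset.mem_filter, Finset.mem_powerset] at hT
  refine ⟨T, hT.1, hT.2, ?_⟩
  have hcov : S ⊆ T.biUnion fun a => S.filter (r a) := by
    intro b hb
    rw [Finset.mem_biUnion]
    by_contra hno
    push Not at hno
    have hbT : b ∉ T := fun hbT => hno b hbT (by simp [hb, hrefl])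
    have hins : insert b T ∈ P := by
      rw [hP, Finset.mem_filter, Finset.mem_powerset]
      refine ⟨Finset.insert_subset hb hT.1, ?_⟩
      intro x hx y hy hxy
      rw [Finset.mem_insert] at hx hy
      rcases hx with rfl | hx <;> rcases hy with rfl | hy
      · rfl
      · exact absurd (Finset.mem_filter.mpr ⟨hb, hsymm _ _ hxy⟩) (hno y hy)
      · exact absurd (Finset.mem_filter.mpr ⟨hb, hxy⟩) (hno x hx)
      · exact hT.2 x hx y hy hxy
    have := hmax _ hins
    rw [Finset.card_insert_of_notMem hbT] at this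
    omega
  calc S.card ≤ (T.biUnion fun a => S.filter (r a)).card := Finset.card_le_card hcov
    _ ≤ T.card * n := Finset.card_biUnion_le_card_mul _ _ _ fun a ha => h a (hT.1 ha)
    _ = n * T.card := mul_comm _ _

/-- **ISO**: few elements give isomorphic fields. -/
theorem iso_fiber (k : Type) [Field k] [NumberField k] (S : Finset (𝓞 k))
    (hS : ∀ m ∈ S, ∀ m' ∈ S, IsSquare ((m : k) * m') → m = m')
    (hns : ∀ m ∈ S, ¬ IsSquare (3 * (m : k)))
    (K' : Type) [Field K'] [NumberField K']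
    (hK : ∀ m ∈ S, ∃ (K : Type) (_ : Field K) (_ : Algebra k K) (r : K), finrank k K = 2 ∧
      r ^ 2 = algebraMap k K (3 * (m : k)) ∧ Nonempty (K ≃+* K')) :
    S.card ≤ finrank ℚ k := by
  classical
  obtain ⟨j⟩ : Nonempty (K' →+* ℂ) := inferInstance
  have key : ∀ m : {m // m ∈ S}, ∃ (τ : k →+* K') (x : K'), x ^ 2 = τ (3 * ((m : 𝓞 k) : k)) ∧
      (letI := τ.toAlgebra; finrank k K' = 2) := by
    rintro ⟨m, hm⟩
    obtain ⟨K, _, _, r, h2, hr, ⟨f⟩⟩ := hK m hm
    refine ⟨(f : K →+* K').comp (algebraMap k K), f r, ?_, ?_⟩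
    · rw [RingHom.comp_apply, ← hr, ← map_pow]
      rfl
    · let _ := ((f : K →+* K').comp (algebraMap k K)).toAlgebra
      let e : K ≃ₐ[k] K' := AlgEquiv.ofRingEquiv (f := f) fun x => rfl
      rw [← h2]
      exact (e.toLinearEquiv.finrank_eq).symm
  choose τ x hx h2 using key
  have hinj : Function.Injective (fun m : {m // m ∈ S} => j.comp (τ m)) := by
    intro m m' heq
    simp only at heq
    have hτ : τ m = τ m' := by
      ext z
      apply j.injective
      exact congrArg (fun g : k →+* ℂ => g z) heq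
    let _ := (τ m).toAlgebra
    have h2m := h2 m
    have hx1 : x m ^ 2 = algebraMap k K' (3 * ((m : 𝓞 k) : k)) := hx m
    have hx2 : x m' ^ 2 = algebraMap k K' (3 * ((m' : 𝓞 k) : k)) := by
      rw [hx m', ← hτ]
      rfl
    rcases sq_below two_ne_zero h2m hx1 (hns m m.2) hx2 with h | ⟨b, hb⟩
    · exact absurd h (hns m' m'.2)
    · apply Subtype.ext
      apply hS m m.2 m' m'.2
      have h3 : (3 : k) ≠ 0 := by norm_num
      have hb' : ((m' : 𝓞 k) : k) = b ^ 2 * ((m : 𝓞 k) : k) := by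
        apply mul_left_cancel₀ h3
        rw [hb]; ring
      exact ⟨b * ((m : 𝓞 k) : k), by rw [hb']; ring⟩
  have h1 := Fintype.card_le_of_injective _ hinj
  rwa [Embeddings.card, Fintype.card_coe] at h1

/-- **DSC**: bound of the discriminant. -/
theorem discr_le (k K : Type) [Field k] [NumberField k] [Field K] [NumberField K] [Algebra k K]
    (h2 : finrank k K = 2) (m : 𝓞 k) (r : K) (hr : r ^ 2 = algebraMap k K (3 * (m : k)))
    (hns : ¬ IsSquare (3 * (m : k))) :
    (discr K).natAbs ≤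
      12 ^ finrank ℚ k * (Algebra.norm ℤ m).natAbs * (discr k).natAbs ^ 2 := by
  classical
  have h3 : (algebraMap k K (3 * (m : k))) = algebraMap (𝓞 k) K (3 * m) := by
    rw [IsScalarTower.algebraMap_apply (𝓞 k) k K, map_mul (algebraMap (𝓞 k) k), map_ofNat]
  have hrint : IsIntegral ℤ r := by
    have : IsIntegral ℤ (r ^ 2) := by
      rw [hr, h3]
      exact (RingOfIntegers.isIntegral (3 * m)).algebraMap
    exact this.of_pow (by norm_num)
  set ρ : 𝓞 K := ⟨r, hrint⟩ with hρ
  have hρ' : algebraMap (𝓞 K) K ρ = r := rfl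
  have hρ2 : ρ ^ 2 = algebraMap (𝓞 k) (𝓞 K) (3 * m) := by
    apply RingOfIntegers.coe_injective
    rw [map_pow, hρ', hr, h3]
    rfl
  have hrk : ∀ t : k, algebraMap k K t ≠ r := by
    intro t ht
    apply hns
    refine ⟨t, ?_⟩
    apply (algebraMap k K).injective
    rw [← hr, ← ht, map_mul, sq]
  have hFD : FiniteDimensional k K := FiniteDimensional.of_finrank_pos (by omega)
  -- minimal polynomial
  have hirr : Irreducible (X ^ 2 - C (3 * (m : k)) : k[X]) := by
    rw [X_pow_sub_C_irreducible_iff_of_prime Nat.prime_two]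
    intro b hb
    exact hns ⟨b, by rw [← hb, sq]⟩
  have hmink : minpoly k r = X ^ 2 - C (3 * (m : k)) := by
    symm
    apply minpoly.eq_of_irreducible_of_monic hirr
    · simp only [map_sub, map_pow, aeval_X, aeval_C]
      rw [hr, sub_self]
    · exact monic_X_pow_sub_C _ two_ne_zero
  have hmin : minpoly (𝓞 k) ρ = X ^ 2 - C (3 * m) := by
    have h4 := minpoly.isIntegrallyClosed_eq_field_fractions k K (s := ρ)
      (Algebra.IsIntegral.isIntegral (R := 𝓞 k) ρ)
    rw [hρ', hmink] at h4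
    apply map_injective (algebraMap (𝓞 k) k) RingOfIntegers.coe_injective
    rw [← h4]
    rw [Polynomial.map_sub, Polynomial.map_pow, map_X, Polynomial.map_C]
    congr 2
  have htop : Algebra.adjoin k {algebraMap (𝓞 K) K ρ} = ⊤ := by
    rw [hρ']
    have h5 : IntermediateField.adjoin k {r} = ⊤ := by
      rw [Field.primitive_element_iff_minpoly_natDegree_eq, hmink, h2]
      exact natDegree_X_pow_sub_C
    rw [← IntermediateField.adjoin_simple_toSubalgebra_of_isAlgebraic
      (Algebra.IsAlgebraic.isAlgebraic r), h5, IntermediateField.top_toSubalgebra]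
  have hmem := aeval_derivative_mem_differentIdeal (𝓞 k) k K (B := 𝓞 K) ρ htop
  rw [hmin] at hmem
  simp only [derivative_sub, derivative_X_pow, derivative_C, sub_zero] at hmem
  have hmem' : (2 : 𝓞 K) * ρ ∈ differentIdeal (𝓞 k) (𝓞 K) := by
    have h6 : (2 : 𝓞 K) * ρ = (aeval ρ) (C ((2 : ℕ) : 𝓞 k) * X ^ (2 - 1)) := by
      rw [map_mul, aeval_C, map_natCast, map_pow, aeval_X]
      norm_num
    rw [h6]
    exact hmem
  have hdvd := Ideal.absNorm_dvd_norm_of_mem hmem'
  -- the norm of `2ρ`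
  have hnorm : (Algebra.norm ℤ ((2 : 𝓞 K) * ρ)).natAbs =
      12 ^ finrank ℚ k * (Algebra.norm ℤ m).natAbs := by
    have h7 : (Algebra.norm ℤ ((2 : 𝓞 K) * ρ)) ^ 2 = (12 ^ finrank ℚ k * Algebra.norm ℤ m) ^ 2 := by
      have h8 : ((Algebra.norm ℤ (((2 : 𝓞 K) * ρ) ^ 2) : ℤ) : ℚ) =
          (12 ^ finrank ℚ k * (Algebra.norm ℤ m : ℤ)) ^ 2 := by
        rw [Algebra.coe_norm_int, Algebra.coe_norm_int]
        have h9 : ((((2 : 𝓞 K) * ρ) ^ 2 : 𝓞 K) : K) = algebraMap k K (12 * (m : k)) := by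
          rw [show ((((2 : 𝓞 K) * ρ) ^ 2 : 𝓞 K) : K) = (2 * r) ^ 2 from by
            push_cast; rfl, mul_pow, hr, ← map_ofNat (algebraMap k K) 2, ← map_pow, ← map_mul]
          congr 1; ring
        rw [h9, ← Algebra.norm_norm (R := ℚ) (S := k), Algebra.norm_algebraMap, h2, map_pow, map_mul]
        congr 2
        rw [← map_ofNat (algebraMap ℚ k) 12, Algebra.norm_algebraMap]
      rw [← map_pow]
      exact_mod_cast h8
    have h10 := congrArg Int.natAbs h7
    rw [Int.natAbs_pow, Int.natAbs_pow, Int.natAbs_mul, Int.natAbs_pow] at h10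
    exact Nat.pow_left_injective two_ne_zero h10
  have hne : (Algebra.norm ℤ ((2 : 𝓞 K) * ρ)).natAbs ≠ 0 := by
    rw [Int.natAbs_ne_zero, Algebra.norm_ne_zero_iff]
    apply mul_ne_zero two_ne_zero
    intro h0
    apply hrk 0
    rw [map_zero, ← hρ', h0, map_zero]
  have hle : Ideal.absNorm (differentIdeal (𝓞 k) (𝓞 K)) ≤
      12 ^ finrank ℚ k * (Algebra.norm ℤ m).natAbs := by
    rw [← hnorm]
    apply Nat.le_of_dvd (Nat.pos_of_ne_zero hne)
    rw [← Int.natAbs_natCast (Ideal.absNorm (differentIdeal (𝓞 k) (𝓞 K)))]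
    exact Int.natAbs_dvd_natAbs.mpr hdvd
  have hmain := natAbs_discr_eq_absNorm_differentIdeal_mul_natAbs_discr_pow k (𝓞 k) K (𝓞 K)
  rw [h2] at hmain
  rw [hmain]
  gcongr

end Pool.Agent.LEO4.H59
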