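import Mathlib
import Pool.Agent.LeoK.CorStmts
import Pool.Agent.Helper59_LEO4.Small
import Pool.Agent.Helper59_LEO4.Iso

/-!
# LEO4, corollaries: positive proportion over a fixed base, and all degrees `2 ^ j`
-/

set_option autoImplicit false

open NumberField Module IsDedekindDomain WithZero Polynomial Filter
open Pool.Agent.Helper85_Leo Pool.Agent.Leo3 Pool.Agent.LeoK

namespace Pool.Agent.LEO4.H59

theorem nsq' {k : Type} [Field k] [NumberField k] {m : 𝓞 k} (h : Adm k m) :
    ¬ IsSquare (3 * (m : k)) := by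
  rintro ⟨x, hx⟩
  exact h.nsq x (by rw [sq]; exact hx.symm)

/-- **GEN**. -/
theorem gen (hk : KcntStmt) (hs : StrStmt) (hi : InhStmt) (hr : RatStmt) : GenStmt := by
  classical
  intro k _ _ hrat
  have h3 := hr k hrat
  obtain ⟨c, B, hc, hev⟩ := hk k hrat.real
  set n := finrank ℚ k with hn
  have hn0 : 0 < n := finrank_pos
  set D : ℝ := 12 ^ n * ((discr k).natAbs : ℝ) ^ 2 with hD
  have hD0 : 0 < D := by
    have : (discr k).natAbs ≠ 0 := Int.natAbs_ne_zero.mpr (discr_ne_zero k)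
    have : (0 : ℝ) < ((discr k).natAbs : ℝ) := by positivity
    positivity
  -- negligible abelian ones
  have hsmall : ∀ᶠ Z : ℝ in atTop, ∀ S : Finset (𝓞 k), 2 ≤ n →
      (∀ m ∈ S, Squarefree (Ideal.span {m}) ∧ ¬ IsSquare (3 * (m : k)) ∧
        ((Algebra.norm ℤ m).natAbs : ℝ) ≤ Z ∧ (∀ φ : k →+* ℝ, 0 < φ m) ∧
        (∀ φ ψ : k →+* ℝ, φ m ≤ B * ψ m) ∧
        ∃ (K : Type) (_ : Field K) (_ : NumberField K) (_ : Algebra k K) (r : K),
          finrank k K = 2 ∧ r ^ 2 = algebraMap k K (3 * (m : k)) ∧ IsAbelianGalois ℚ K) →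
      (S.card : ℝ) ≤ (c / 2) * Z := by
    by_cases h2 : 2 ≤ n
    · filter_upwards [nab_small k hrat.real h2 B (c / 2) (by positivity)] with Z hZ S _ hS
      exact hZ S hS
    · exact Eventually.of_forall fun Z S h => absurd h h2
  have hev' := (tendsto_id.atTop_div_const hD0).eventually (hev.and hsmall)
  refine ⟨c / (2 * n * D), by positivity, ?_⟩
  filter_upwards [hev', eventually_ge_atTop (0 : ℝ)] with X hX hX0
  obtain ⟨⟨S, hScard, hS, hSinj⟩, hab⟩ := hX
  simp only [id] at hScard hS hab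
  -- the fields
  have hfield : ∀ m : {m // m ∈ S}, ∃ (K : Type) (_ : Field K) (_ : NumberField K)
      (_ : Algebra k K) (r : K), finrank k K = 2 ∧
        r ^ 2 = algebraMap k K (3 * ((m : 𝓞 k) : k)) := fun m =>
    exists_quad k _ (nsq' (hS m m.2).1)
  choose K hF hNF hA r h2 hr2 using hfield
  -- the subset of non abelian ones
  set S₁ : Finset {m // m ∈ S} := Finset.univ.filter fun m =>
    ¬ (2 ≤ n ∧ IsAbelianGalois ℚ (K m)) with hS₁
  have hS₁card : c / 2 * (X / D) ≤ S₁.card := by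
    set S₂ : Finset {m // m ∈ S} := Finset.univ.filter fun m =>
      (2 ≤ n ∧ IsAbelianGalois ℚ (K m)) with hS₂
    have hsum : S₂.card + S₁.card = S.card := by
      rw [hS₁, hS₂, Finset.card_filter_add_card_filter_not]
      simp
    have hS₂card : (S₂.card : ℝ) ≤ c / 2 * (X / D) := by
      by_cases h2n : 2 ≤ n
      · have := hab (S₂.map ⟨Subtype.val, Subtype.val_injective⟩) h2n (by
          intro m hm
          rw [Finset.mem_map] at hm
          obtain ⟨⟨m', hm'⟩, hmem, rfl⟩ := hm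
          simp only [hS₂, Finset.mem_filter, Finset.mem_univ, true_and] at hmem
          obtain ⟨hadm, hnm, hbal, -⟩ := hS m' hm'
          exact ⟨hadm.sqf, nsq' hadm, hnm, hadm.pos, hbal, K ⟨m', hm'⟩, hF _, hNF _, hA _,
            r _, h2 _, hr2 _, hmem.2⟩)
        rwa [Finset.card_map] at this
      · have : S₂ = ∅ := by
          rw [hS₂, Finset.filter_eq_empty_iff]
          intro m _ h
          exact h2n h.1
        rw [this]
        simp only [Finset.card_empty, Nat.cast_zero]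
        positivity
    have hsum' : (S₂.card : ℝ) + S₁.card = S.card := by exact_mod_cast hsum
    linarith
  -- representatives
  obtain ⟨T, hTS, hTinj, hTcard⟩ := select S₁ (fun m m' => Nonempty (K m ≃+* K m'))
    (fun m => ⟨RingEquiv.refl _⟩) (fun m m' ⟨e⟩ => ⟨e.symm⟩) n (by
      intro a ha
      have h := iso_fiber k ((S₁.filter fun m' => Nonempty (K a ≃+* K m')).map
        ⟨Subtype.val, Subtype.val_injective⟩) (by
          intro m hm m' hm' hsq
          rw [Finset.mem_map] at hm hm'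
          obtain ⟨m₀, -, rfl⟩ := hm
          obtain ⟨m₁, -, rfl⟩ := hm'
          exact hSinj _ m₀.2 _ m₁.2 hsq) (by
          intro m hm
          rw [Finset.mem_map] at hm
          obtain ⟨m₀, -, rfl⟩ := hm
          exact nsq' (hS _ m₀.2).1) (K a) (by
          intro m hm
          rw [Finset.mem_map] at hm
          obtain ⟨m₀, hm₀, rfl⟩ := hm
          rw [Finset.mem_filter] at hm₀
          obtain ⟨-, ⟨e⟩⟩ := hm₀
          exact ⟨K m₀, hF _, hA _, r _, h2 _, hr2 _, ⟨e.symm⟩⟩)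
      rwa [Finset.card_map] at h)
  refine ⟨{m // m ∈ T}, inferInstance, fun m => K m.1, fun m => hF m.1, fun m => hNF m.1,
    fun m => hA m.1, ?_, ?_, ?_⟩
  · rw [Fintype.card_coe]
    have h4 : (S₁.card : ℝ) ≤ n * T.card := by exact_mod_cast hTcard
    have hnpos : (0 : ℝ) < n := by exact_mod_cast hn0
    have h5 : c / (2 * n * D) * X = (c / 2 * (X / D)) / n := by
      field_simp
    rw [h5, div_le_iff₀ hnpos]
    linarith
  · rintro ⟨m, hm⟩ ⟨m', hm'⟩ he
    exact Subtype.ext (hTinj m hm m' hm' he)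
  · rintro ⟨m, hm⟩
    obtain ⟨hadm, hnm, hbal, hform⟩ := hS m.1 m.2
    obtain ⟨hnomu, hW⟩ := hs k (K m) m.1 (r m) hrat.real hrat.nomu h3 (h2 m) (hr2 m) hadm
    have hWM : WMinus k (K m) := by
      by_contra hno
      exact hform (hW hno)
    obtain ⟨-, -, hR, -⟩ := hi k (K m) m.1 (r m) hrat.real (h2 m) (hr2 m) hadm hnomu hWM
    refine ⟨h2 m, ?_, (hR hrat).1, ?_⟩
    · have hd := discr_le k (K m) (h2 m) m.1 (r m) (hr2 m) (nsq' hadm)
      have hd' : ((discr (K m)).natAbs : ℝ) ≤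
          12 ^ n * ((Algebra.norm ℤ m.1).natAbs : ℝ) * ((discr k).natAbs : ℝ) ^ 2 := by
        exact_mod_cast hd
      calc ((discr (K m)).natAbs : ℝ)
          ≤ 12 ^ n * ((Algebra.norm ℤ m.1).natAbs : ℝ) * ((discr k).natAbs : ℝ) ^ 2 := hd'
        _ = D * ((Algebra.norm ℤ m.1).natAbs : ℝ) := by rw [hD]; ring
        _ ≤ D * (X / D) := by gcongr
        _ = X := by field_simp
    · intro h2n hab'
      have hmem := hTS hm
      simp only [hS₁, Finset.mem_filter, Finset.mem_univ, true_and] at hmem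
      exact hmem ⟨h2n, hab'⟩

/-- existence in every degree `2 ^ j`. -/
theorem exists_base (hg : GenStmt) (hq : QqStmt) (j : ℕ) :
    ∃ (k : Type) (_ : Field k) (_ : NumberField k), finrank ℚ k = 2 ^ j ∧ Rat3 k := by
  induction j with
  | zero => exact ⟨ℚ, inferInstance, inferInstance, by simp, hq⟩
  | succ j ih =>
    obtain ⟨k, _, _, hk, hrat⟩ := ih
    obtain ⟨c, hc, hev⟩ := hg k hrat
    obtain ⟨X, hX, hX1⟩ := (hev.and (eventually_ge_atTop (1 : ℝ))).exists
    obtain ⟨I, _, K, hF, hNF, hA, hcard, -, hK⟩ := hX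
    have hpos : 0 < Fintype.card I := by
      have : (0 : ℝ) < Fintype.card I := lt_of_lt_of_le (by positivity) hcard
      exact_mod_cast this
    obtain ⟨i⟩ : Nonempty I := Fintype.card_pos_iff.mp hpos
    obtain ⟨h2, -, hR, -⟩ := hK i
    refine ⟨K i, hF i, hNF i, ?_, hR⟩
    rw [← Module.finrank_mul_finrank ℚ k (K i), hk, h2, pow_succ]

/-- **HEAD**. -/
theorem head (hg : GenStmt) (hq : QqStmt) (hl : Leo3Stmt) (hu : Gup3Stmt) : HeadStmt := by
  intro j hj
  obtain ⟨k, _, _, hk, hrat⟩ := exists_base hg hq (j - 1)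
  obtain ⟨c, hc, hev⟩ := hg k hrat
  refine ⟨c, hc, ?_⟩
  filter_upwards [hev] with X hX
  obtain ⟨I, hI, K, hF, hNF, hA, hcard, hinj, hK⟩ := hX
  refine ⟨I, hI, K, hF, hNF, hcard, hinj, fun i => ?_⟩
  obtain ⟨h2, hd, hR, hab⟩ := hK i
  have hdeg : finrank ℚ (K i) = 2 ^ j := by
    rw [← Module.finrank_mul_finrank ℚ k (K i), hk, h2, ← pow_succ]
    congr 1
    omega
  refine ⟨hdeg, hR.real, hd, hab ?_, hl (K i) hR.nomu hR.w3, ?_⟩
  · rw [hk]
    calc 2 = 2 ^ 1 := by norm_num
      _ ≤ 2 ^ (j - 1) := Nat.pow_le_pow_right (by norm_num) (by omega)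
  · intro E _ _ _ _ e hE hunr
    obtain ⟨h1, h2'⟩ := hu (K i) E e hE hunr hR.nomu hR.w3
    exact hl E h1 h2'

end Pool.Agent.LEO4.H59
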